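import Pool.Agent.Run7.h941.CB3

set_option autoImplicit false
open MvPolynomial

/-- The sharp degree bound of Eisenbud, Green and Harris for subschemes of zero-dimensional complete
intersections in `ℙ^c`, `c ≤ 3`, over every field; and for every `c` when all `d_i ≥ 2` and
`d_i ≥ (d_1 - 1) + … + (d_{i-1} - 1)` for all `i ≥ 4` (no condition on `d_1, d_2, d_3`).

`F_1, …, F_c` is a regular sequence of forms of degrees `d_1 ≤ … ≤ d_c` (the complete intersection),
`J` the saturated homogeneous ideal of the subscheme `Γ`, `h` its Hilbert function, `D` its degree,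
and `Γ` fails to impose independent conditions in degree `m`. Indices start at `0`, so `k < c`, the
sums and the product over `i ≥ k + 1` are those of the problem over `i ≥ k + 2`, and
`e = m + 1 - ∑_{i ≥ k + 1} (d_i - 1)`. -/
theorem Pool.Agent.Results.MP_47ab85_ag.ThreeHypersurfacesSharp.result :
  ∀ (K : Type*) [Field K] (c : ℕ) (d : Fin c → ℕ)
    (F : Fin c → MvPolynomial (Fin (c + 1)) K),
    (∀ i, 1 ≤ d i) → Monotone d →
    (c ≤ 3 ∨ ((∀ i, 2 ≤ d i) ∧
      ∀ i : Fin c, 3 ≤ i.val → ∑ j ∈ Finset.Iio i, (d j - 1) ≤ d i)) →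
    (∀ i, (F i).IsHomogeneous (d i)) →
    RingTheory.Sequence.IsRegular (MvPolynomial (Fin (c + 1)) K) (List.ofFn F) →
    ∀ J : Ideal (MvPolynomial (Fin (c + 1)) K),
    (∀ f ∈ J, ∀ n : ℕ, MvPolynomial.homogeneousComponent n f ∈ J) →
    (∀ f : MvPolynomial (Fin (c + 1)) K,
        (∃ N : ℕ, ∀ i : Fin (c + 1), MvPolynomial.X i ^ N * f ∈ J) → f ∈ J) →
    (∀ i, F i ∈ J) →
    ∀ h : ℕ → ℕ,
    (∀ n : ℕ, h n =
        Module.finrank K (MvPolynomial.homogeneousSubmodule (Fin (c + 1)) K n) -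
        Module.finrank K
          ↥(Submodule.restrictScalars K J ⊓
            MvPolynomial.homogeneousSubmodule (Fin (c + 1)) K n)) →
    ∀ D : ℕ, (∃ N : ℕ, ∀ n ≥ N, h n = D) →
    ∀ m k : ℕ, k < c →
    (∑ i ∈ Finset.univ.filter (fun i : Fin c => k + 1 ≤ i.val), (d i - 1)) ≤ m + 1 →
    m + 1 < ∑ i ∈ Finset.univ.filter (fun i : Fin c => k ≤ i.val), (d i - 1) →
    h m < D →
    (m + 1 - (∑ i ∈ Finset.univ.filter (fun i : Fin c => k + 1 ≤ i.val), (d i - 1)) + 1) *
      ∏ i ∈ Finset.univ.filter (fun i : Fin c => k + 1 ≤ i.val), d i ≤ D := by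
  intro K _ c d F hd hm hA hF hreg J hJ hsat hFJ h hh D hD m k hk h1 h2 hlt
  have hR : H503R3.QCI.Reg F := H503R3.QCI.reg_of_isWeaklyRegular hreg.toIsWeaklyRegular
  obtain ⟨N, hN⟩ := hD
  have hAA : ∀ j, Module.finrank K (TH130CI.AA J j) = h j := by
    intro j
    have h1 := TH130CI.finrank_AA (I := J) j
    rw [hh j]
    change _ = _ - Module.finrank K (H503R3.QCI.gr J j)
    omega
  refine Run7.H941.N.deg_ge hd hm hA hF hR hJ ?_ hFJ (N := N) ?_ hk h1 h2 ?_
  · intro f hf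
    exact hsat f ⟨1, fun i => by rw [pow_one]; exact hf i⟩
  · intro j hj
    rw [hAA]
    exact hN j hj
  · rw [hAA]
    exact hlt
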